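import Mathlib
import Pool.Agent.H759R2.Kad.Props4

open scoped ComplexOrder InnerProductSpace ComplexConjugate
open Finset

noncomputable section

namespace H759R2.Kad

universe u v

theorem prove4_final (h1 : S_hb.{u, v}) (h2 : S_form.{v}) (h3 : S_root.{u, v}) : S_final.{u, v} := by
  intro A _ _ _ H _ _ _ w hw C hC hL
  obtain ⟨φ, hφ, hinv⟩ := h1 A H w hw C hC hL
  obtain ⟨P, hP, hPφ⟩ := h2 H φ C hC hφ
  refine h3 A H w hw C hC P hP (fun ξ => ?_) fun g ξ => ?_
  · rw [hPφ, Complex.ofReal_re]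
    exact hφ ξ
  · rw [hPφ, hPφ, hinv]

end H759R2.Kad
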